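import Pool.Agent.EWG.StmtsA

set_option autoImplicit false

namespace Pool.Agent.EWG.H97

open Pool.Agent.EWG

theorem inj : InjStmt := by
  intro m d l l' hm hmd hl hl' hlm hlm' hd hd'
  by_contra hne
  have hco : Nat.Coprime l l' := (Nat.coprime_primes hl hl').2 hne
  have hdvd : l * l' ∣ m := hco.mul_dvd_of_dvd_of_dvd hlm hlm'
  have hle : l * l' ≤ m := Nat.le_of_dvd hm hdvd
  have h1 : l * l' < d := lt_of_le_of_lt hle hmd
  have h2 : (l * l') * (l * l') < d * d := Nat.mul_self_lt_mul_self h1
  have h3 : d * d < (l * l') * (l * l') := by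
    calc d * d < l ^ 2 * l' ^ 2 := by
          have h0 : 0 < l' ^ 2 := pow_pos hl'.pos 2
          exact Nat.mul_lt_mul_of_lt_of_le hd hd'.le h0
      _ = (l * l') * (l * l') := by ring
  omega

end Pool.Agent.EWG.H97
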